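import Mathlib

namespace Pool.Agent.Results.MP_cb9dee_al.Frobenius

/-- Two groups are conformal. -/
def Conformal (G H : Type*) [Group G] [Group H] : Prop :=
  ∀ d : ℕ, 1 ≤ d → Nat.card {x : G // x ^ d = 1} = Nat.card {x : H // x ^ d = 1}

variable {F E K C : Type} [Field F] [Field E] [CommGroup K] [CommGroup C]

/-- A diagonal affine group times an abelian group. -/
@[ext] structure Aff (α : K →* Fˣ) (β : K →* Eˣ) (C : Type) where
  x : F
  y : E
  s : K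
  c : C

variable {α : K →* Fˣ} {β : K →* Eˣ}

instance : Mul (Aff α β C) :=
  ⟨fun a b => ⟨a.x + α a.s * b.x, a.y + β a.s * b.y, a.s * b.s, a.c * b.c⟩⟩
instance : One (Aff α β C) := ⟨⟨0, 0, 1, 1⟩⟩
instance : Inv (Aff α β C) := ⟨fun a => ⟨-(α a.s⁻¹ * a.x), -(β a.s⁻¹ * a.y), a.s⁻¹, a.c⁻¹⟩⟩

@[simp] theorem mul_x (a b : Aff α β C) : (a * b).x = a.x + α a.s * b.x := rfl
@[simp] theorem mul_y (a b : Aff α β C) : (a * b).y = a.y + β a.s * b.y := rfl
@[simp] theorem mul_s (a b : Aff α β C) : (a * b).s = a.s * b.s := rfl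
@[simp] theorem mul_c (a b : Aff α β C) : (a * b).c = a.c * b.c := rfl
@[simp] theorem one_x : (1 : Aff α β C).x = 0 := rfl
@[simp] theorem one_y : (1 : Aff α β C).y = 0 := rfl
@[simp] theorem one_s : (1 : Aff α β C).s = 1 := rfl
@[simp] theorem one_c : (1 : Aff α β C).c = 1 := rfl
@[simp] theorem inv_x (a : Aff α β C) : a⁻¹.x = -(α a.s⁻¹ * a.x) := rfl
@[simp] theorem inv_y (a : Aff α β C) : a⁻¹.y = -(β a.s⁻¹ * a.y) := rfl
@[simp] theorem inv_s (a : Aff α β C) : a⁻¹.s = a.s⁻¹ := rfl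
@[simp] theorem inv_c (a : Aff α β C) : a⁻¹.c = a.c⁻¹ := rfl

instance : Group (Aff α β C) := Group.ofLeftAxioms
  (fun a b c => by ext <;> simp [mul_add, add_assoc, mul_assoc])
  (fun a => by ext <;> simp) (fun a => by ext <;> simp)

theorem pow_eq (a : Aff α β C) (d : ℕ) : a ^ d =
    ⟨(∑ i ∈ Finset.range d, (α a.s : F) ^ i) * a.x,
      (∑ i ∈ Finset.range d, (β a.s : E) ^ i) * a.y, a.s ^ d, a.c ^ d⟩ := by
  induction d with
  | zero => ext <;> simp
  | succ d ih =>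
    rw [pow_succ, ih]
    ext <;> simp [Finset.sum_range_succ, add_mul, pow_succ]

theorem geom {L : Type} [Field L] (γ : K →* Lˣ) (hγ : Function.Injective γ) (s : K) (d : ℕ)
    (hs : s ≠ 1) (hd : s ^ d = 1) : ∑ i ∈ Finset.range d, (γ s : L) ^ i = 0 := by
  have h1 : (γ s : L) ≠ 1 := fun h => hs (hγ (by rw [map_one]; exact Units.ext h))
  rw [geom_sum_eq h1, ← Units.val_pow_eq_pow_val, ← map_pow, hd]
  simp

theorem pow_one_iff (hα : Function.Injective α) (hβ : Function.Injective β) (a : Aff α β C)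
    (d : ℕ) : a ^ d = 1 ↔ a.s ^ d = 1 ∧ a.c ^ d = 1 ∧
      (a.s = 1 → (d : F) * a.x = 0 ∧ (d : E) * a.y = 0) := by
  rw [pow_eq, Aff.ext_iff]
  simp only [one_x, one_y, one_s, one_c]
  by_cases hs : a.s = 1
  · simp only [hs, map_one, Units.val_one, one_pow, Finset.sum_const, Finset.card_range,
      nsmul_eq_mul, mul_one]
    tauto
  · constructor
    · rintro ⟨-, -, h1, h2⟩
      exact ⟨h1, h2, fun h => absurd h hs⟩
    · rintro ⟨h1, h2, -⟩
      rw [geom α hα _ _ hs h1, geom β hβ _ _ hs h1]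
      simp [h1, h2]

/-- The underlying set. -/
def toProd (α : K →* Fˣ) (β : K →* Eˣ) (C : Type) : Aff α β C ≃ F × E × K × C where
  toFun a := (a.x, a.y, a.s, a.c)
  invFun a := ⟨a.1, a.2.1, a.2.2.1, a.2.2.2⟩
  left_inv _ := rfl
  right_inv _ := rfl

/-- An isomorphism invariant. -/
def Inv (G : Type) [Group G] (e : ℕ) : Prop :=
  ∃ g : G, ∀ u v : G, g * (u * v * u⁻¹ * v⁻¹) * g⁻¹ = (u * v * u⁻¹ * v⁻¹) ^ e

theorem Inv.map {G H : Type} [Group G] [Group H] (f : G ≃* H) {e : ℕ} (h : Inv G e) :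
    Inv H e := by
  obtain ⟨g, hg⟩ := h
  refine ⟨f g, fun u v => ?_⟩
  simpa using congrArg f (hg (f.symm u) (f.symm v))

theorem inv_one (s : K) (e : ℕ) (h1 : (e : F) = α s) (h2 : (e : E) = β s) :
    Inv (Aff α β C) e := by
  refine ⟨⟨0, 0, s, 1⟩, fun u v => ?_⟩
  have a1 : (u * v * u⁻¹ * v⁻¹).s = 1 := by simp
  have a2 : (u * v * u⁻¹ * v⁻¹).c = 1 := by simp
  generalize u * v * u⁻¹ * v⁻¹ = w at a1 a2
  rw [pow_eq]
  ext <;> simp [a1, a2, h1, h2]

theorem inv_two (hα : Function.Injective α) (hβ : Function.Injective β) (s : K) (e : ℕ)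
    (hs : s ≠ 1) (h1 : (e : F) = α s) (h2 : (e : E) = β s) (h : Inv (Aff α β⁻¹ C) e) :
    s ^ 2 = 1 := by
  obtain ⟨g, hg⟩ := h
  have h3 := hg ⟨1, 1, 1, 1⟩ ⟨0, 0, s, 1⟩
  have a0 : (⟨1, 1, 1, 1⟩ * ⟨0, 0, s, 1⟩ * (⟨1, 1, 1, 1⟩ : Aff α β⁻¹ C)⁻¹ *
      (⟨0, 0, s, 1⟩ : Aff α β⁻¹ C)⁻¹) = ⟨1 - α s, 1 - (β s : E)⁻¹, 1, 1⟩ := by
    ext <;> simp [sub_eq_add_neg]
  rw [a0, pow_eq] at h3
  have n1 : (1 : F) - α s ≠ 0 := fun h =>
    hs (hα (by rw [map_one]; exact Units.ext (sub_eq_zero.1 h).symm))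
  have n2 : (1 : E) - (β s : E)⁻¹ ≠ 0 := fun h =>
    hs (hβ (by rw [map_one]; exact Units.ext (inv_eq_one.1 (sub_eq_zero.1 h).symm)))
  have b1 : (α g.s : F) * (1 - α s) = α s * (1 - α s) := by
    simpa [h1, ← mul_assoc] using congrArg Aff.x h3
  have b2 : (β g.s : E)⁻¹ * (1 - (β s : E)⁻¹) = β s * (1 - (β s : E)⁻¹) := by
    simpa [h2, ← mul_assoc] using congrArg Aff.y h3
  have c1 : g.s = s := hα (Units.ext (mul_right_cancel₀ n1 b1))
  have c2 := mul_right_cancel₀ n2 b2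
  rw [c1] at c2
  apply hβ
  rw [map_pow, map_one]
  apply Units.ext
  rw [Units.val_pow_eq_pow_val, pow_two]
  nth_rewrite 1 [← c2]
  simp

theorem exists_hom (p q : ℕ) [Fact q.Prime] (h : p ∣ q - 1) :
    ∃ α : Multiplicative (ZMod p) →* (ZMod q)ˣ, Function.Injective α := by
  obtain ⟨g, hg⟩ := IsCyclic.exists_ofOrder_eq_natCard (α := (ZMod q)ˣ)
  rw [Nat.card_eq_fintype_card, ZMod.card_units] at hg
  have ha : orderOf (g ^ (orderOf g / p)) = p :=
    orderOf_pow_orderOf_div (orderOf_pos g).ne' (hg ▸ h)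
  have e : Multiplicative (ZMod p) ≃* Subgroup.zpowers (g ^ (orderOf g / p)) :=
    mulEquivOfCyclicCardEq (by rw [Nat.card_zpowers, ha]; exact Nat.card_zmod p)
  exact ⟨(Subgroup.zpowers (g ^ (orderOf g / p))).subtype.comp e.toMonoidHom,
    Subtype.val_injective.comp e.injective⟩

theorem result (p q r n : ℕ) (hp : 3 ≤ p) (hq : q.Prime) (hr : r.Prime)
    (hpq : p ∣ q - 1) (hpr : p ∣ r - 1) (hn : 0 < n) (hd : p * q * r ∣ n) :
    ∃ (G H : Type) (_ : Group G) (_ : Group H), Nat.card G = n ∧ Nat.card H = n ∧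
      Conformal G H ∧ IsEmpty (G ≃* H) := by
  have := Fact.mk hq
  have := Fact.mk hr
  obtain ⟨m, rfl⟩ := hd
  have hm : ∀ m, Nat.card (Multiplicative (ZMod m)) = m := Nat.card_zmod
  let s : Multiplicative (ZMod p) := Multiplicative.ofAdd 1
  have hs2 : s ^ 2 ≠ 1 := fun h => by
    have h1 : ((2 : ℕ) : ZMod p) = 0 := by
      have := congrArg Multiplicative.toAdd h
      simpa [s] using this
    have := Nat.le_of_dvd two_pos ((ZMod.natCast_eq_zero_iff _ _).1 h1)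
    omega
  have hs : s ≠ 1 := fun h => hs2 (by rw [h, one_pow])
  obtain ⟨α, β, e, hα, hβ, h1, h2⟩ : ∃ (α : Multiplicative (ZMod p) →* (ZMod q)ˣ)
      (β : Multiplicative (ZMod p) →* (ZMod r)ˣ) (e : ℕ), Function.Injective α ∧
      Function.Injective β ∧ (e : ZMod q) = α s ∧ (e : ZMod r) = β s := by
    obtain ⟨α, hα⟩ := exists_hom p q hpq
    by_cases hqr : q = r
    · subst hqr
      exact ⟨α, α, (α s : ZMod q).val, hα, hα, by simp, by simp⟩
    · obtain ⟨β, hβ⟩ := exists_hom p r hpr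
      obtain ⟨e, e1, e2⟩ := Nat.chineseRemainder ((Nat.coprime_primes hq hr).2 hqr)
        (α s : ZMod q).val (β s : ZMod r).val
      refine ⟨α, β, e, hα, hβ, ?_, ?_⟩
      · rw [(ZMod.natCast_eq_natCast_iff _ _ _).2 e1]; simp
      · rw [(ZMod.natCast_eq_natCast_iff _ _ _).2 e2]; simp
  have hβ' : Function.Injective (β⁻¹ : Multiplicative (ZMod p) →* (ZMod r)ˣ) :=
    fun a b h => hβ (inv_injective h)
  refine ⟨Aff α β (Multiplicative (ZMod m)), Aff α β⁻¹ (Multiplicative (ZMod m)),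
    inferInstance, inferInstance, ?_, ?_, fun d _ => ?_, ⟨fun f => ?_⟩⟩
  · rw [Nat.card_congr (toProd _ _ _)]
    simp only [Nat.card_prod, hm, Nat.card_zmod]
    ring
  · rw [Nat.card_congr (toProd _ _ _)]
    simp only [Nat.card_prod, hm, Nat.card_zmod]
    ring
  · refine Nat.card_congr (((toProd α β _).trans (toProd α β⁻¹ _).symm).subtypeEquiv fun a => ?_)
    rw [pow_one_iff hα hβ, pow_one_iff hα hβ']
    rfl
  · exact hs2 (inv_two hα hβ s e hs h1 h2 ((inv_one s e h1 h2).map f))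

end Pool.Agent.Results.MP_cb9dee_al.Frobenius
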